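import Pool.Agent.R489.PI.Conv

/-!
# Every minimal PI system has a diagonal point that is recurrent along a piecewise syndetic set
under `T × T ^ 2`
-/

set_option autoImplicit false

namespace Pool.Agent.Results.MP_76db73_an

open Pool.Agent.R489.PI

/-- `A` is piecewise syndetic: for some `N` the union of the `A - j`, `0 ≤ j ≤ N`, contains
arbitrarily long intervals of consecutive integers -/
def PiecewiseSyndetic (A : Set ℤ) : Prop :=
  ∃ N : ℕ, ∀ L : ℕ, ∃ m : ℤ, ∀ n : ℤ, m ≤ n → n < m + L → ∃ j : ℕ, j ≤ N ∧ n + j ∈ A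

/-- the return times of `z` to every neighbourhood form a piecewise syndetic set -/
def FpsRecurrent {Z : Type} [TopologicalSpace Z] (f : Z ≃ₜ Z) (z : Z) : Prop :=
  ∀ V : Set Z, IsOpen V → z ∈ V → PiecewiseSyndetic {n : ℤ | (f ^ n) z ∈ V}

/-- Every minimal PI system has a point `x` such that `(x, x)` is recurrent along piecewise
syndetic sets under `T × T ^ 2`. -/
theorem PiecewiseSyndeticRecurrence.result :
    ∀ S : Sys, IsPI S → ∃ x : S.X, FpsRecurrent (S.T.prodCongr (S.T ^ 2)) (x, x) := by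
  intro S hS
  obtain ⟨x, hx⟩ := main hS
  refine ⟨x, ?_⟩
  have h2 := hx 2
  have hc : Continuous (fun w : Fin 2 → S.X => (w 0, w 1)) :=
    (continuous_apply 0).prodMk (continuous_apply 1)
  have he : (tau (pw S.act (aa 2))).Equi (hact (S.T.prodCongr (S.T ^ 2)))
      (fun w : Fin 2 → S.X => (w 0, w 1)) := by
    intro n w
    have g1 := conj_zpow (f := S.T.prodCongr (S.T ^ 2)) (g := S.T) (p := Prod.fst)
      (fun w => rfl) n (w 0, w 1)
    have g2 := conj_zpow (f := S.T.prodCongr (S.T ^ 2)) (g := S.T ^ 2) (p := Prod.snd)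
      (fun w => rfl) n (w 0, w 1)
    apply Prod.ext
    · show (S.T ^ (0 + aa 2 0 * n)) (w 0) = (((S.T.prodCongr (S.T ^ 2)) ^ n) (w 0, w 1)).1
      rw [g1]
      simp [aa]
    · show (S.T ^ (0 + aa 2 1 * n)) (w 1) = (((S.T.prodCongr (S.T ^ 2)) ^ n) (w 0, w 1)).2
      rw [g2, zero_add, zpow_mul]
      congr 2
  have hm : (hact (S.T.prodCongr (S.T ^ 2))).MinPt (x, x) := h2.map hc he
  intro V hV hxV
  obtain ⟨N, hN⟩ := syndetic hm hV hxV
  exact ⟨N, fun L => ⟨0, fun n _ _ => hN n⟩⟩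

end Pool.Agent.Results.MP_76db73_an
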